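import Mathlib
import Pool.Agent.DZ.Top

set_option autoImplicit false

namespace Pool.Agent.Results.MP_a0d807_gt.LindelofNonDZFC

/-- There is a Hausdorff space with a base of clopen sets which is Lindelöf (and paracompact) and
carries a neighbourhood assignment `N` such that for no closed discrete set `D` the sets `N d`,
`d ∈ D`, cover the space. -/
theorem result : ∃ (X : Type) (_ : TopologicalSpace X), T2Space X ∧ LindelofSpace X ∧
    ParacompactSpace X ∧
    (∀ (O : Set X), IsOpen O → ∀ x ∈ O, ∃ B : Set X, IsClopen B ∧ x ∈ B ∧ B ⊆ O) ∧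
    ∃ N : X → Set X, (∀ x, x ∈ N x ∧ IsOpen (N x)) ∧
      ∀ D : Set X, IsClosed D → DiscreteTopology D → (⋃ d ∈ D, N d) ≠ Set.univ :=
  Pool.Agent.DZ.exists_space

end Pool.Agent.Results.MP_a0d807_gt.LindelofNonDZFC
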