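import Pool.Agent.DSp.Final

/-!
# MP_a0d807_gt: it is consistent with ZFC that there is a regular hereditarily Lindelöf space which
is not a D-space

There is a model `(M, E)` of ZFC in which there is a regular zero-dimensional space `(X, τ)` such
that every subspace of `(X, τ)` is Lindelöf and paracompact, but `(X, τ)` is not a D-space.  So
neither Q1 (regular paracompact spaces) nor Q2 (regular hereditarily paracompact spaces) has a
positive answer provable in ZFC, and the same holds for regular Lindelöf spaces (van Douwen's
problem).

The notions are defined in `Pool.Agent.BVM.Fml` (formulas and the axioms of ZFC),
`Pool.Agent.BVM.Notions` (ordered pairs, functions, `ω`, `CardLE`) and `Pool.Agent.DSp.Notions`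
(all topological notions).

The model is the quotient by an ultrafilter of the Boolean-valued universe over the regular open
algebra of the σ-closed poset `Cond K`, `K` a well-ordered set of size `ℵ₁`.  A condition is a
countable set of points with a matrix `x a b` of coordinates (`x a a` true, and `N(b)` is the set
of the points `a` with `x a b` true), and a countable set of promises.  A promise is a set `E` of
finite sets of requirements on the coordinates of a point, such that each closed discrete set of
the countable space misses the domain of some member of `E`; all later points have to meet `E`,
and later coordinates have to be continuous on the countable space.  Since a closed discrete set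
`D` misses the domains of members of all promises, some later point has the coordinate `0` at all
points of `D`; so `D` does not witness the D-property.  On the other hand, if a family of basic
open sets were a counterexample to the hereditary Lindelöf property, a countable part of it would
be (after adding points of accumulation of the domains) a legitimate promise.
-/

namespace Pool.Agent.Results.MP_a0d807_gt.RegularLindelofNonD

open Pool.Agent.BVM Pool.Agent.DSp

theorem result : ∃ (M : Type 1) (E : M → M → Prop), ZFC E ∧
    ∃ X τ : M, Topology E X τ ∧ Regular E X τ ∧ ZeroDimensional E X τ ∧
      HerLindelof E X τ ∧ HerParacompact E X τ ∧ ¬ DSpace E X τ := by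
  obtain ⟨M, E, h, X, τ, h1, _, h2, h3, h4, h5, h6⟩ := exists_model
  exact ⟨M, E, h, X, τ, h1, h2, h3, h4, h5, h6⟩

end Pool.Agent.Results.MP_a0d807_gt.RegularLindelofNonD
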